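import Pool.Agent.H23.GC.Targets2

/-!
# GC board: common facts for the modules J1 and JS (helper15)
-/

set_option autoImplicit false

open Finset Pool.Agent.H23.GW Pool.Agent.H23.GC
open scoped Classical Nat

namespace Pool.Agent.H15.GC

noncomputable section

variable {ι : Type} [Fintype ι] {G : Type} [AddCommGroup G]

theorem ell_le_nrm (c : ι → ℤ) : ell c ≤ nrm c := by
  unfold ell nrm
  rw [card_filter]
  refine sum_le_sum fun i _ => ?_
  by_cases h : c i = 0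
  · simp [h]
  · rw [if_pos h]
    exact Nat.one_le_iff_ne_zero.2 (Int.natAbs_ne_zero.2 h)

/-- the defect sum -/
def Dz (s : ℕ) (ev : (ι → ℤ) →+ G) (g : G) : ℤ :=
  ∑ c ∈ Vn ι (s + 1) with ev c = g, ((s : ℤ) + 1 - ell c)

theorem ell_le (hV : T_V) {n : ℕ} {c : ι → ℤ} (hc : c ∈ Vn ι n) : ell c ≤ n := by
  have h := (hV ι n c).1 hc
  rw [← h]
  exact ell_le_nrm c

theorem y_eq (hI : T_I) {s : ℕ} {ev : (ι → ℤ) →+ G} (hPC : PC s ev) (hs : 1 ≤ s) {d : ι → ℤ}
    (hd : d ∈ Vn ι s) :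
    ((s : ℤ) + 1) * nb s ev d - 2 * Fintype.card ι = Dz s ev (ev d) - ell d := by
  have h1 := (hI ι G s ev hPC hs).1 d hd
  have h2 : (∑ c ∈ Vn ι (s + 1) with ev c = ev d, (ell c : ℤ)) + ell d = 2 * Fintype.card ι := by
    exact_mod_cast h1
  unfold Dz nb
  rw [sum_sub_distrib, sum_const, nsmul_eq_mul]
  linarith

theorem Dz_nonneg (hV : T_V) (s : ℕ) (ev : (ι → ℤ) →+ G) (g : G) : 0 ≤ Dz s ev g := by
  refine sum_nonneg fun c hc => ?_
  rw [mem_filter] at hc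
  have := ell_le hV hc.1
  have : (ell c : ℤ) ≤ s + 1 := by exact_mod_cast this
  linarith

/-- summing over the unique vector of norm `s` -/
theorem sum_unique (hI : T_I) {s : ℕ} {ev : (ι → ℤ) →+ G} (hPC : PC s ev) (hs : 1 ≤ s)
    (Ψ : (ι → ℤ) → ℝ) :
    ∑ d ∈ Vn ι s, ∑ c ∈ Vn ι (s + 1) with ev c = ev d, Ψ c = ∑ c ∈ Vn ι (s + 1), Ψ c := by
  simp only [sum_filter]
  rw [sum_comm]
  refine sum_congr rfl fun c hc => ?_
  obtain ⟨d, ⟨hd, hde⟩, huniq⟩ := (hI ι G s ev hPC hs).2 c hc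
  rw [sum_eq_single d]
  · rw [if_pos hde.symm]
  · intro d' hd' hne
    rw [if_neg]
    exact fun h => hne (huniq d' ⟨hd', h.symm⟩)
  · intro h; exact absurd hd h

theorem card_eq_sum {α : Type} (T : Finset α) (P : α → Prop) [DecidablePred P] :
    (#{q ∈ T | P q} : ℝ) = ∑ q ∈ T, if P q then (1:ℝ) else 0 := by
  rw [card_filter]; push_cast; rfl

theorem sum_prod_filter {α β : Type} (T : Finset α) (U : Finset β) (P : α → β → Prop)
    [∀ a b, Decidable (P a b)] (Φ : α → β → ℝ) :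
    ∑ a ∈ T, ∑ b ∈ U with P a b, Φ a b = ∑ q ∈ T ×ˢ U, if P q.1 q.2 then Φ q.1 q.2 else 0 := by
  rw [sum_product]
  exact sum_congr rfl fun a _ => by rw [sum_filter]

end

end Pool.Agent.H15.GC
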