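import Pool.Agent.H23.GC.Targets2

/-!
# GC module Z2: the second order of the number of words with two coincidences (helper15)
-/

set_option autoImplicit false

open Finset Pool.Agent.H23.GW Pool.Agent.H23.GC
open scoped Classical Nat

namespace Pool.Agent.H15.GC

noncomputable section

private theorem sfi {α M : Type} [AddCommMonoid M] {f1 f2 : Fintype α} (g : α → M) :
    ∑ x ∈ @Finset.univ α f1, g x = ∑ x ∈ @Finset.univ α f2, g x := by
  cases Subsingleton.elim f1 f2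
  rfl

private theorem cfs {α : Type} {s : Finset α} {P : α → Prop} {d1 d2 : DecidablePred P} :
    #(@Finset.filter α P d1 s) = #(@Finset.filter α P d2 s) := by
  cases Subsingleton.elim d1 d2
  rfl

private theorem cfi {α : Type} {f1 f2 : Fintype α} {P : α → Prop} {d1 d2 : DecidablePred P} :
    #(@Finset.filter α P d1 (@Finset.univ α f1)) = #(@Finset.filter α P d2 (@Finset.univ α f2)) := by
  cases Subsingleton.elim f1 f2
  cases Subsingleton.elim d1 d2
  rfl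

/-- a splitting of the index type of a word -/
structure Split {K A B : Type} [Fintype K] [Fintype A] [Fintype B] (ia : A → K) (ib : B → K) :
    Prop where
  sum : ∀ {M : Type} [AddCommMonoid M] (f : K → M), ∑ k, f k = ∑ a, f (ia a) + ∑ b, f (ib b)
  cover : ∀ k, (∃ a, ia a = k) ∨ ∃ b, ib b = k

variable {ι : Type} [Fintype ι] {G : Type} [AddCommGroup G]

theorem nrm_neg (v : ι → ℤ) : nrm (-v) = nrm v := by
  unfold nrm
  exact sum_congr rfl fun i _ => by simp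

theorem nrm_add_le (v w : ι → ℤ) : nrm (v + w) ≤ nrm v + nrm w := by
  unfold nrm
  rw [← sum_add_distrib]
  exact sum_le_sum fun i _ => Int.natAbs_add_le _ _

theorem nrm_sub_le (v w : ι → ℤ) : nrm (v - w) ≤ nrm v + nrm w := by
  rw [sub_eq_add_neg, ← nrm_neg w]
  exact nrm_add_le _ _

/-- the short representative of the coset of a word -/
def rr {s : ℕ} {ev : (ι → ℤ) →+ G} (hPC : PC s ev) {A : Type} [Fintype A] (w : A → ι × Bool) :
    ι → ℤ := (hPC (ev (vs w))).exists.choose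

theorem rr_spec {s : ℕ} {ev : (ι → ℤ) →+ G} (hPC : PC s ev) {A : Type} [Fintype A]
    (w : A → ι × Bool) : nrm (rr hPC w) ≤ s ∧ ev (rr hPC w) = ev (vs w) :=
  (hPC (ev (vs w))).exists.choose_spec

theorem rr_eq {s : ℕ} {ev : (ι → ℤ) →+ G} (hPC : PC s ev) {A : Type} [Fintype A]
    (w : A → ι × Bool) {v : ι → ℤ} (hv : nrm v ≤ s) (he : ev (vs w) + ev v = 0) :
    v = -rr hPC w := by
  have h1 : nrm (-v) ≤ s ∧ ev (-v) = ev (vs w) := by
    refine ⟨by rw [nrm_neg]; exact hv, ?_⟩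
    rw [map_neg]
    exact (eq_neg_of_add_eq_zero_left he).symm
  have h2 := (hPC (ev (vs w))).unique h1 (rr_spec hPC w)
  rw [← h2, neg_neg]

theorem split_bound (hW : T_W) {s : ℕ} {ev : (ι → ℤ) →+ G} (hPC : PC s ev) {K A B : Type}
    [Fintype K] [Fintype A] [Fintype B] {ia : A → K} {ib : B → K} (hsp : Split ia ib)
    (hK : Fintype.card K = Fintype.card A + Fintype.card B) (hB : Fintype.card B ≤ s)
    (RA : Finset (A → ι × Bool)) (Q : (B → ι × Bool) → Prop) (P : (K → ι × Bool) → Prop)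
    (h1 : ∀ z ∈ Zr ev K, P z → (nrm (vs (fun a => z (ia a))) = Fintype.card A →
      nrm (rr hPC (fun a => z (ia a))) = Fintype.card B → (fun a => z (ia a)) ∈ RA) ∧
      Q (fun b => z (ib b))) :
    #{z ∈ Zr ev K | P z} ≤ ∑ w ∈ RA, #{u : B → ι × Bool | vs u = -rr hPC w ∧ Q u} := by
  rw [← card_sigma]
  refine card_le_card_of_injOn (fun z => ⟨fun a => z (ia a), fun b => z (ib b)⟩) ?_ ?_
  · intro z hz
    rw [mem_coe, mem_filter] at hz
    obtain ⟨hz1, hz2⟩ := hz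
    have hz3 : nrm (vs z) = Fintype.card K ∧ ev (vs z) = 0 := by
      have := hz1
      unfold Zr at this
      exact (mem_filter.1 this).2
    have hvs : vs z = vs (fun a => z (ia a)) + vs (fun b => z (ib b)) := by
      unfold vs
      exact hsp.sum (fun k => dv (z k))
    have hA' := (hW ι A).1 (fun a => z (ia a))
    have hB' := (hW ι B).1 (fun b => z (ib b))
    have hn := nrm_add_le (vs (fun a => z (ia a))) (vs (fun b => z (ib b)))
    rw [← hvs, hz3.1, hK] at hn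
    have hAe : nrm (vs (fun a => z (ia a))) = Fintype.card A := by omega
    have hBe : nrm (vs (fun b => z (ib b))) = Fintype.card B := by omega
    have he : ev (vs (fun a => z (ia a))) + ev (vs (fun b => z (ib b))) = 0 := by
      rw [← map_add, ← hvs, hz3.2]
    have hr := rr_eq hPC (fun a => z (ia a)) (hBe.le.trans hB) he
    have hrn : nrm (rr hPC (fun a => z (ia a))) = Fintype.card B := by
      rw [← hBe, hr, nrm_neg]
    obtain ⟨h2, h3⟩ := h1 z hz1 hz2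
    rw [mem_coe, mem_sigma]
    refine ⟨h2 hAe hrn, ?_⟩
    rw [mem_filter]
    exact ⟨mem_univ _, hr, h3⟩
  · intro z _ z' _ h
    have h2 := Sigma.mk.inj_iff.1 h
    have h3 : (fun b => z (ib b)) = (fun b => z' (ib b)) := eq_of_heq h2.2
    funext k
    rcases hsp.cover k with ⟨a, rfl⟩ | ⟨b, rfl⟩
    · exact congrFun h2.1 a
    · exact congrFun h3 b

theorem z2_core (hL : T_L) (hW : T_W) (hW2 : T_W2) {s : ℕ} (hs : 6 ≤ s) {ev : (ι → ℤ) →+ G}
    (hPC : PC s ev) {K A B K' B' : Type} [Fintype K] [Fintype A] [Fintype B] [Fintype K']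
    [Fintype B'] {ia : A → K} {ib : B → K} (hsp : Split ia ib) {ia' : A → K'} {ib' : B' → K'}
    (hsp' : Split ia' ib') (hA : Fintype.card A = s + 2) (hB : Fintype.card B = s)
    (hB' : Fintype.card B' = s - 1) (hK : Fintype.card K = 2 * s + 2)
    (hK' : Fintype.card K' = 2 * s + 1) (i j k l : A) (p q : B) (hpq : p ≠ q) :
    (#{z ∈ Zr ev K | z (ia i) = z (ia j) ∧ z (ia k) = z (ia l)} +
      s.choose 2 * #{z ∈ Zr ev K | z (ia i) = z (ia j) ∧ z (ia k) = z (ia l) ∧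
        z (ib p) = z (ib q)} +
      s * #{z ∈ Zr ev K' | z (ia' i) = z (ia' j) ∧ z (ia' k) = z (ia' l)} ≤
      s ! * #{w : A → ι × Bool | nrm (vs w) = Fintype.card A ∧ w i = w j ∧ w k = w l}) := by
  set R := univ.filter (fun w : A → ι × Bool => nrm (vs w) = Fintype.card A ∧ w i = w j ∧
    w k = w l) with hR
  set R3 := R.filter (fun w => nrm (rr hPC w) = s - 1) with hR3
  set R2 := R.filter (fun w => ¬ nrm (rr hPC w) = s - 1) with hR2
  have hRR : #R3 + #R2 = #R := card_filter_add_card_filter_not _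
  -- (1)
  have b1 : #{z ∈ Zr ev K | z (ia i) = z (ia j) ∧ z (ia k) = z (ia l)} ≤
      ∑ w ∈ R2, #{u : B → ι × Bool | vs u = -rr hPC w ∧ True} := by
    have hh := split_bound hW hPC hsp (by omega) (by omega) R2 (fun _ => True)
      (fun z => z (ia i) = z (ia j) ∧ z (ia k) = z (ia l)) ?_
    · exact le_of_eq_of_le cfs (hh.trans_eq (sum_congr rfl fun w _ => cfi))
    intro z _ hP
    refine ⟨fun h1 h2 => ?_, trivial⟩
    rw [hR2, mem_filter, hR, mem_filter]
    exact ⟨⟨mem_univ _, h1, hP.1, hP.2⟩, by omega⟩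
  have b2 : #{z ∈ Zr ev K | z (ia i) = z (ia j) ∧ z (ia k) = z (ia l) ∧ z (ib p) = z (ib q)} ≤
      ∑ w ∈ R2, #{u : B → ι × Bool | vs u = -rr hPC w ∧ u p = u q} := by
    have hh := split_bound hW hPC hsp (by omega) (by omega) R2 (fun u => u p = u q)
      (fun z => z (ia i) = z (ia j) ∧ z (ia k) = z (ia l) ∧ z (ib p) = z (ib q)) ?_
    · exact le_of_eq_of_le cfs (hh.trans_eq (sum_congr rfl fun w _ => cfi))
    intro z _ hP
    refine ⟨fun h1 h2 => ?_, hP.2.2⟩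
    rw [hR2, mem_filter, hR, mem_filter]
    exact ⟨⟨mem_univ _, h1, hP.1, hP.2.1⟩, by omega⟩
  have b3 : #{z ∈ Zr ev K' | z (ia' i) = z (ia' j) ∧ z (ia' k) = z (ia' l)} ≤
      ∑ w ∈ R3, #{u : B' → ι × Bool | vs u = -rr hPC w ∧ True} := by
    have hh := split_bound hW hPC hsp' (by omega) (by omega) R3 (fun _ => True)
      (fun z => z (ia' i) = z (ia' j) ∧ z (ia' k) = z (ia' l)) ?_
    · exact le_of_eq_of_le cfs (hh.trans_eq (sum_congr rfl fun w _ => cfi))
    intro z _ hP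
    refine ⟨fun h1 h2 => ?_, trivial⟩
    rw [hR3, mem_filter, hR, mem_filter]
    exact ⟨⟨mem_univ _, h1, hP.1, hP.2⟩, by omega⟩
  -- each w in R2
  have c2 : ∀ w ∈ R2, #{u : B → ι × Bool | vs u = -rr hPC w ∧ True} +
      s.choose 2 * #{u : B → ι × Bool | vs u = -rr hPC w ∧ u p = u q} ≤ s ! := by
    intro w hw
    rw [hR2, mem_filter, hR, mem_filter] at hw
    obtain ⟨⟨_, hw1, -, -⟩, hw2⟩ := hw
    obtain ⟨r1, r2⟩ := rr_spec hPC w
    have hne : vs w ≠ rr hPC w := by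
      intro h
      rw [← h, hw1, hA] at r1
      omega
    obtain ⟨l1, l2, -⟩ := (hL ι G s ev hPC).2 (vs w) (rr hPC w) hne r2.symm
    have hr : nrm (rr hPC w) = s := by omega
    have hv : nrm (-rr hPC w) = Fintype.card B := by rw [nrm_neg, hr, hB]
    have h3 := (hW2 ι B (-rr hPC w) hv).2.1 p q hpq
    rw [hB] at h3
    have h4 : #{u : B → ι × Bool | vs u = -rr hPC w ∧ True} =
        #{u : B → ι × Bool | vs u = -rr hPC w} := by
      congr 1
      ext u
      simp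
    rw [h4]
    omega
  have c3 : ∀ w ∈ R3, #{u : B' → ι × Bool | vs u = -rr hPC w ∧ True} ≤ (s - 1)! := by
    intro w hw
    rw [hR3, mem_filter] at hw
    have hv : nrm (-rr hPC w) = Fintype.card B' := by rw [nrm_neg, hw.2, hB']
    have h3 := ((hW ι B').2 (-rr hPC w) hv).2.1
    rw [hB'] at h3
    refine le_trans (card_le_card ?_) h3
    intro u hu
    rw [mem_filter] at hu ⊢
    exact ⟨hu.1, hu.2.1⟩
  have d2 : ∑ w ∈ R2, #{u : B → ι × Bool | vs u = -rr hPC w ∧ True} +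
      s.choose 2 * ∑ w ∈ R2, #{u : B → ι × Bool | vs u = -rr hPC w ∧ u p = u q} ≤
      s ! * #R2 := by
    rw [mul_sum, ← sum_add_distrib]
    refine (sum_le_sum c2).trans ?_
    rw [sum_const, smul_eq_mul, mul_comm]
  have d3 : ∑ w ∈ R3, #{u : B' → ι × Bool | vs u = -rr hPC w ∧ True} ≤ (s - 1)! * #R3 := by
    refine (sum_le_sum c3).trans ?_
    rw [sum_const, smul_eq_mul, mul_comm]
  have hfac : s ! = s * (s - 1)! := by
    obtain ⟨t, rfl⟩ : ∃ t, s = t + 1 := ⟨s - 1, by omega⟩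
    rfl
  have e3 : s * #{z ∈ Zr ev K' | z (ia' i) = z (ia' j) ∧ z (ia' k) = z (ia' l)} ≤ s ! * #R3 := by
    rw [hfac, mul_assoc]
    exact Nat.mul_le_mul_left s (b3.trans d3)
  have e2 : s.choose 2 * #{z ∈ Zr ev K | z (ia i) = z (ia j) ∧ z (ia k) = z (ia l) ∧
      z (ib p) = z (ib q)} ≤
      s.choose 2 * ∑ w ∈ R2, #{u : B → ι × Bool | vs u = -rr hPC w ∧ u p = u q} :=
    Nat.mul_le_mul_left _ b2
  rw [← hRR, mul_add]
  omega

theorem z2 (hL : T_L) (hW : T_W) (hW2 : T_W2) (hR : T_R) (hZL : T_ZL) (hC : T_C) : T_Z2 := by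
  intro s hs
  obtain ⟨C1, hC1⟩ := hR s (by omega)
  obtain ⟨C2, hC2⟩ := hZL s hs
  obtain ⟨C5, hC5⟩ := hC.2.1 s (by omega)
  refine ⟨s ! * C1 + s ! * ((s * (s - 1) : ℝ) / 2) * |C5| + s * C2 + s.choose 2 * C2, ?_⟩
  intro ι _ G _ ev hPC hm κ _ hκ i j k l hnd
  -- the splitting
  have hsub : ∃ Aset : Finset κ, ({i, j, k, l} : Finset κ) ⊆ Aset ∧ Aset.card = s + 2 := by
    refine exists_superset_card_eq ?_ (by rw [hκ]; omega)
    refine (card_insert_le _ _).trans ?_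
    refine le_trans (Nat.add_le_add_right (card_insert_le _ _) _) ?_
    refine le_trans (Nat.add_le_add_right (Nat.add_le_add_right (card_insert_le _ _) _) _) ?_
    rw [card_singleton]; omega
  obtain ⟨Aset, hAs, hAc⟩ := hsub
  let A := {x // x ∈ Aset}
  let B := {x // x ∉ Aset}
  have hAcard : Fintype.card A = s + 2 := by
    rw [Fintype.card_coe, hAc]
  have hBcard : Fintype.card B = s := by
    have h1 : Fintype.card B = Fintype.card κ - Fintype.card A :=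
      Fintype.card_subtype_compl (fun x => x ∈ Aset)
    rw [h1, hκ, hAcard]; omega
  have hspl : Split (fun a : A => a.1) (fun b : B => b.1) := by
    constructor
    · intro M _ f
      have h1 := (Fintype.sum_subtype_add_sum_subtype (fun x => x ∈ Aset) f).symm
      exact h1.trans (congrArg₂ (· + ·) (sfi _) (sfi _))
    · intro x
      by_cases hx : x ∈ Aset
      · exact Or.inl ⟨⟨x, hx⟩, rfl⟩
      · exact Or.inr ⟨⟨x, hx⟩, rfl⟩
  have hspl' : Split (fun a : A => (Sum.inl a : A ⊕ Fin (s - 1)))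
      (fun b : Fin (s - 1) => (Sum.inr b : A ⊕ Fin (s - 1))) := by
    constructor
    · intro M _ f
      exact Fintype.sum_sum_type f
    · rintro (a | b)
      · exact Or.inl ⟨a, rfl⟩
      · exact Or.inr ⟨b, rfl⟩
  have hK'card : Fintype.card (A ⊕ Fin (s - 1)) = 2 * s + 1 := by
    rw [Fintype.card_sum, hAcard, Fintype.card_fin]; omega
  have hi : i ∈ Aset := hAs (by simp)
  have hj : j ∈ Aset := hAs (by simp)
  have hk : k ∈ Aset := hAs (by simp)
  have hl : l ∈ Aset := hAs (by simp)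
  -- two points of B
  obtain ⟨p, q, hpq⟩ : ∃ p q : B, p ≠ q := by
    have : 1 < Fintype.card B := by rw [hBcard]; omega
    exact Fintype.one_lt_card_iff.1 this
  have hcore := z2_core hL hW hW2 hs hPC hspl hspl' hAcard hBcard (by rw [Fintype.card_fin])
    hκ hK'card ⟨i, hi⟩ ⟨j, hj⟩ ⟨k, hk⟩ ⟨l, hl⟩ p q hpq
  simp only at hcore
  -- the inputs
  have hndA : [(⟨i, hi⟩ : A), ⟨j, hj⟩, ⟨k, hk⟩, ⟨l, hl⟩].Nodup := by
    simp only [List.nodup_cons, List.mem_cons, List.not_mem_nil, or_false, not_or,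
      List.nodup_nil, not_false_eq_true, and_true, Subtype.mk.injEq] at hnd ⊢
    exact hnd
  have r1 := hC1 ι hm A hAcard ⟨i, hi⟩ ⟨j, hj⟩ ⟨k, hk⟩ ⟨l, hl⟩ hndA
  have hndK' : [(Sum.inl ⟨i, hi⟩ : A ⊕ Fin (s - 1)), Sum.inl ⟨j, hj⟩, Sum.inl ⟨k, hk⟩,
      Sum.inl ⟨l, hl⟩].Nodup := by
    have := hndA.map (f := fun a : A => (Sum.inl a : A ⊕ Fin (s - 1))) Sum.inl_injective
    simpa using this
  have r2 := (hC2 ι G ev hPC hm (A ⊕ Fin (s - 1))).1 hK'card _ _ _ _ hndK'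
  have hndK : [i, j, k, l, p.1, q.1].Nodup := by
    have hpq' : p.1 ≠ q.1 := fun h => hpq (Subtype.ext h)
    have hp := p.2
    have hq := q.2
    have n1 : ∀ x ∈ Aset, x ≠ p.1 := fun x hx h => hp (h ▸ hx)
    have n2 : ∀ x ∈ Aset, x ≠ q.1 := fun x hx h => hq (h ▸ hx)
    simp only [List.nodup_cons, List.mem_cons, List.not_mem_nil, or_false, not_or,
      List.nodup_nil, not_false_eq_true, and_true] at hnd ⊢
    exact ⟨⟨hnd.1.1, hnd.1.2.1, hnd.1.2.2, n1 i hi, n2 i hi⟩,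
      ⟨hnd.2.1.1, hnd.2.1.2, n1 j hj, n2 j hj⟩, ⟨hnd.2.2, n1 k hk, n2 k hk⟩,
      ⟨n1 l hl, n2 l hl⟩, hpq'⟩
  have r3 := (hC2 ι G ev hPC hm κ).2 hκ i j k l p.1 q.1 hndK
  have n8 := hC5 ι hm
  set m : ℕ := Fintype.card ι with hmdef
  set Xm : ℝ := (2 * (m : ℝ)) ^ (s - 1) with hXm
  set Ym : ℝ := (m : ℝ) ^ (s - 2) with hYm
  have hmr : (1:ℝ) ≤ m := by exact_mod_cast hm
  have hYpos : 0 < Ym := by rw [hYm]; positivity
  set N : ℝ := (#{d ∈ Vn ι s | ell d = s} : ℝ) with hN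
  set S : ℝ := (#{d ∈ Vn ι s | ell d + 1 = s} : ℝ) with hS
  have hS' : (#{d ∈ Vn ι s | ell d = s - 1} : ℝ) = S := by
    rw [hS]
    congr 2
    ext d
    rw [mem_filter, mem_filter]
    constructor <;> rintro ⟨h1, h2⟩ <;> exact ⟨h1, by omega⟩
  rw [hS'] at n8
  have hcoreR : (#{z ∈ Zr ev κ | z i = z j ∧ z k = z l} : ℝ) +
      s.choose 2 * (#{z ∈ Zr ev κ | z i = z j ∧ z k = z l ∧ z p.1 = z q.1} : ℝ) +
      s * (#{z ∈ Zr ev (A ⊕ Fin (s - 1)) | z (Sum.inl ⟨i, hi⟩) = z (Sum.inl ⟨j, hj⟩) ∧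
        z (Sum.inl ⟨k, hk⟩) = z (Sum.inl ⟨l, hl⟩)} : ℝ) ≤
      s ! * (s ! * N + (s ! / 2) * S + C1 * Ym) := by
    refine le_trans ?_ (mul_le_mul_of_nonneg_left r1 (by positivity : (0:ℝ) ≤ s !))
    exact_mod_cast hcore
  have hsr : (6:ℝ) ≤ s := by exact_mod_cast hs
  have hch : (s.choose 2 : ℝ) = s * (s - 1) / 2 := Nat.cast_choose_two ℝ s
  have hfac2 : (s ! : ℝ) = s * (s - 1) * (s - 2)! := by
    have h1 : s ! = s * ((s - 1) * (s - 2)!) := by
      obtain ⟨t, rfl⟩ : ∃ t, s = t + 2 := ⟨s - 2, by omega⟩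
      rfl
    rw [h1]
    push_cast
    rw [Nat.cast_sub (by omega)]
    push_cast
    ring
  have hn8 : ((s - 2)! : ℝ) * S ≤ Xm + |C5| * Ym := by
    have h2 := (abs_le.1 n8).2
    have h3 : C5 * Ym ≤ |C5| * Ym := mul_le_mul_of_nonneg_right (le_abs_self _) hYpos.le
    linarith
  have hS2 : (s ! / 2 : ℝ) * S ≤ (s * (s - 1) / 2) * (Xm + |C5| * Ym) := by
    have h1 : (s ! / 2 : ℝ) * S = (s * (s - 1) / 2) * ((s - 2)! * S) := by
      rw [hfac2]; ring
    rw [h1]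
    exact mul_le_mul_of_nonneg_left hn8 (by
      have : (0:ℝ) ≤ s * (s - 1) := mul_nonneg (by linarith) (by linarith)
      linarith)
  have hS3 : (s ! : ℝ) * ((s ! / 2 : ℝ) * S) ≤ s ! * ((s * (s - 1) / 2) * (Xm + |C5| * Ym)) :=
    mul_le_mul_of_nonneg_left hS2 (by positivity)
  have r2' : (s : ℝ) * (s ! * Xm - C2 * Ym) ≤ s * (#{z ∈ Zr ev (A ⊕ Fin (s - 1)) |
      z (Sum.inl ⟨i, hi⟩) = z (Sum.inl ⟨j, hj⟩) ∧
        z (Sum.inl ⟨k, hk⟩) = z (Sum.inl ⟨l, hl⟩)} : ℝ) :=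
    mul_le_mul_of_nonneg_left r2 (by positivity)
  have r3' : (s.choose 2 : ℝ) * (s ! * Xm - C2 * Ym) ≤ s.choose 2 *
      (#{z ∈ Zr ev κ | z i = z j ∧ z k = z l ∧ z p.1 = z q.1} : ℝ) :=
    mul_le_mul_of_nonneg_left r3 (by positivity)
  rw [hch] at r3' hcoreR ⊢
  have hgoal : (s ! : ℝ) * (s ! * N - s * Xm) + (s ! * C1 + s ! * ((s * (s - 1) : ℝ) / 2) * |C5| +
      s * C2 + s * (s - 1) / 2 * C2) * Ym =
      s ! * (s ! * N + C1 * Ym) + s ! * ((s * (s - 1) / 2) * (Xm + |C5| * Ym)) -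
        s * (s ! * Xm - C2 * Ym) - (s * (s - 1) / 2) * (s ! * Xm - C2 * Ym) := by
    ring
  rw [hgoal]
  linarith

end

end Pool.Agent.H15.GC
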